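import Pool.Agent.H484R2.EPi

/-!
If `π + e` (or `π - e`) is algebraic then many numbers `exp θ` are transcendental, where `θ` is a
quadratic polynomial in `e` and `π` with algebraic coefficients whose quadratic part is divisible by
`π + e` (or by `π - e`).
-/

set_option autoImplicit false

namespace Pool.Agent.Results.MP_363d4d_nt.OneOfTwoOrThree

open Pool.Agent.H484R2.EPi

/-- The numbers `a e² + b e π + c π² + α e + β π + γ` with algebraic coefficients and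
`a - σ b + c = 0` (for `σ = ±1` this means that `a X² + b X Y + c Y²` vanishes at
`(X, Y) = (-σ, 1)`, i.e. is divisible by `Y + σ X`). -/
def V (σ : ℂ) : Set ℂ := {θ | ∃ a b c α β γ : ℂ, IsAlgebraic ℚ a ∧ IsAlgebraic ℚ b ∧
  IsAlgebraic ℚ c ∧ IsAlgebraic ℚ α ∧ IsAlgebraic ℚ β ∧ IsAlgebraic ℚ γ ∧ a - σ * b + c = 0 ∧
  θ = a * Complex.exp 1 ^ 2 + b * (Complex.exp 1 * Real.pi) + c * (Real.pi : ℂ) ^ 2 +
    α * Complex.exp 1 + β * Real.pi + γ}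

theorem V_sub_W {σ : ℂ} (hσa : IsAlgebraic ℚ σ) (hσ : σ * σ = 1)
    (hs : IsAlgebraic ℚ ((Real.pi : ℂ) + σ * Complex.exp 1)) {θ : ℂ} (h : θ ∈ V σ) : θ ∈ W := by
  obtain ⟨a, b, c, α, β, γ, ha, hb, hc, hα, hβ, hγ, h0, h1⟩ := h
  set s : ℂ := (Real.pi : ℂ) + σ * Complex.exp 1 with hsdef
  have h2n : IsAlgebraic ℚ (2 : ℂ) := by simpa using isAlgebraic_algebraMap (R := ℚ) (A := ℂ) 2
  refine ⟨a * s ^ 2 + γ, α, β - 2 * a * s + σ * b * s,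
    (ha.mul (hs.pow 2)).add hγ, hα,
    (hβ.sub ((h2n.mul ha).mul hs)).add ((hσa.mul hb).mul hs), ?_⟩
  have hE : Complex.exp 1 = σ * s - σ * Real.pi := by
    rw [hsdef]
    linear_combination (-Complex.exp 1) * hσ
  have hE2 : Complex.exp 1 ^ 2 = s ^ 2 - 2 * s * Real.pi + (Real.pi : ℂ) ^ 2 := by
    rw [hE]
    linear_combination (s - (Real.pi : ℂ)) ^ 2 * hσ
  have hEp : Complex.exp 1 * Real.pi = σ * s * Real.pi - σ * (Real.pi : ℂ) ^ 2 := by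
    rw [hE]
    ring
  rw [h1, hE2, hEp]
  linear_combination (Real.pi : ℂ) ^ 2 * h0

/-- For `σ = 1` and for `σ = -1`: either `π + σ e` is transcendental, or the assertions (a)-(d). -/
theorem result : ∀ σ : ℂ, (σ = 1 ∨ σ = -1) →
    Transcendental ℚ ((Real.pi : ℂ) + σ * Complex.exp 1) ∨
    ((∀ θ : ℝ, (θ : ℂ) ∈ V σ → Transcendental ℚ θ →
        ∀ (n : ℕ) (x c : Fin n → ℝ), (∀ i, 0 < x i) → (∀ i, IsAlgebraic ℚ (x i)) →
          (∀ i, IsAlgebraic ℚ (c i)) → Transcendental ℚ (Real.exp θ * ∏ i, x i ^ c i)) ∧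
     (∀ θ₁ ∈ V σ, ∀ θ₂ ∈ V σ, Transcendental ℚ θ₁ → Transcendental ℚ θ₂ →
        ∀ t₁ ∈ V σ, ∀ t₂ ∈ V σ,
        ∀ l m : ℂ, IsAlgebraic ℚ (Complex.exp l) → IsAlgebraic ℚ (Complex.exp m) →
          LinearIndependent ℚ ![l, m] →
          Transcendental ℚ (Complex.exp (θ₁ * l + t₁)) ∨
            Transcendental ℚ (Complex.exp (θ₂ * m + t₂))) ∧
     (∀ θ₁ ∈ V σ, ∀ θ₂ ∈ V σ, ∀ θ₃ ∈ V σ, Transcendental ℚ θ₁ → Transcendental ℚ θ₂ →
        Transcendental ℚ θ₃ → ∀ t₁ ∈ V σ, ∀ t₂ ∈ V σ, ∀ l : ℂ, IsAlgebraic ℚ (Complex.exp l) →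
          (∀ q : ℚ, l ≠ q * (Real.pi * Complex.I)) →
          Transcendental ℚ (Complex.exp (θ₁ * θ₂ + t₁)) ∨
            Transcendental ℚ (Complex.exp (θ₃ * l + t₂))) ∧
     (∀ θ₁ ∈ V σ, ∀ θ₂ ∈ V σ, ∀ θ₃ ∈ V σ, ∀ θ₄ ∈ V σ, ∀ θ₅ ∈ V σ, Transcendental ℚ θ₁ →
        Transcendental ℚ θ₂ → Transcendental ℚ θ₃ → Transcendental ℚ θ₄ → Transcendental ℚ θ₅ →
          ∀ t₁ ∈ V σ, ∀ t₂ ∈ V σ, ∀ t₃ ∈ V σ, ∀ t₄ ∈ V σ,
          Transcendental ℚ (Complex.exp (θ₁ * θ₂ + t₁)) ∨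
            Transcendental ℚ (Complex.exp (θ₃ * θ₄ * θ₅ + t₂ * t₃ + t₄)))) := by
  intro σ hσ1
  by_cases hs : Transcendental ℚ ((Real.pi : ℂ) + σ * Complex.exp 1)
  · exact Or.inl hs
  right
  rw [Transcendental, not_not] at hs
  have hσ : σ * σ = 1 := by
    rcases hσ1 with h | h <;> rw [h] <;> ring
  have hσa : IsAlgebraic ℚ σ := by
    rcases hσ1 with h | h
    · rw [h]; exact isAlgebraic_one
    · rw [h]; exact isAlgebraic_one.neg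
  have hσ0 : σ ≠ 0 := by
    rintro rfl
    simp at hσ
  have hV : ∀ {θ : ℂ}, θ ∈ V σ → θ ∈ W := fun h => V_sub_W hσa hσ hs h
  set s : ℂ := (Real.pi : ℂ) + σ * Complex.exp 1 with hsdef
  have hu : IsAlgebraic ℚ (σ * s) := hσa.mul hs
  have hv : IsAlgebraic ℚ (-σ) := hσa.neg
  have hv0 : -σ ≠ 0 := neg_ne_zero.2 hσ0
  have hE : E = σ * s + -σ * Real.pi := by
    show Complex.exp 1 = σ * s + -σ * Real.pi
    rw [hsdef]
    linear_combination (-Complex.exp 1) * hσ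
  refine ⟨?_, ?_, ?_, ?_⟩
  · intro θ h ht n x c h0 hx hc
    exact part1 hu hv hE (hV h) ht x c h0 hx hc
  · intro θ₁ h1 θ₂ h2 ht1 ht2 t₁ hts1 t₂ hts2 l m hl hm hlm
    by_contra hcon
    push Not at hcon
    simp only [Transcendental, not_not] at hcon
    exact part2 hu hv hE (hV h1) ht1 (hV h2) ht2 (hV hts1) (hV hts2) hl hm hlm hcon.1 hcon.2
  · intro θ₁ h1 θ₂ h2 θ₃ h3 ht1 ht2 ht3 t₁ hts1 t₂ hts2 l hl hq
    by_contra hcon
    push Not at hcon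
    simp only [Transcendental, not_not] at hcon
    exact part3 hu hv hv0 hE (hV h1) ht1 (hV h2) ht2 (hV h3) ht3 (hV hts1) (hV hts2) hl hq
      hcon.1 hcon.2
  · intro θ₁ h1 θ₂ h2 θ₃ h3 θ₄ h4 θ₅ h5 ht1 ht2 ht3 ht4 ht5 t₁ hts1 t₂ hts2 t₃ hts3 t₄ hts4
    by_contra hcon
    push Not at hcon
    simp only [Transcendental, not_not] at hcon
    exact part4 hu hv hE (hV h1) ht1 (hV h2) ht2 (hV h3) ht3 (hV h4) ht4 (hV h5) ht5 (hV hts1)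
      (hV hts2) (hV hts3) (hV hts4) hcon.1 hcon.2

end Pool.Agent.Results.MP_363d4d_nt.OneOfTwoOrThree
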