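import Mathlib
import Pool.Agent.H447R2.PE.Dich
import Pool.Agent.H900.PE.Often

set_option autoImplicit false

namespace Pool.Agent.Results.MP_363d4d_nt.PlusMinusOrFew

open Real

/-- `π` has few good approximations: for every `K`, the number of rationals `x` with denominator at
most `Q` and `|π - x| ≤ K / den ^ 2` is at most `C log Q / log log Q`. -/
def FewGood : Prop :=
  ∀ K : ℝ, 0 < K → ∃ C : ℝ, 0 < C ∧ ∀ Q : ℝ, 3 ≤ Q → ∀ T : Finset ℚ,
    (∀ x ∈ T, (x.den : ℝ) ≤ Q ∧ |π - x| ≤ K / (x.den : ℝ) ^ 2) →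
      (T.card : ℝ) ≤ C * (log Q / log (log Q))

/-- infinitely many rationals `x`, of denominator `q`, satisfy
`|π - x| ≤ C log log q / (q² log q)` -/
def VeryGoodOften : Prop :=
  ∃ C : ℝ, 0 < C ∧ {x : ℚ | 3 ≤ x.den ∧
    |π - x| ≤ C * (log (log x.den) / ((x.den : ℝ) ^ 2 * log x.den))}.Infinite

/-- Either `π + e` and `π - e` are both irrational, or `π` has few good approximations, and is not
badly approximable. -/
theorem result :
    (Irrational (π + exp 1) ∧ Irrational (π - exp 1)) ∨ (FewGood ∧ VeryGoodOften) := by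
  rcases Pool.Agent.H900.PE.dichotomy 2 (by norm_num) with h | h
  · left
    have h2 := Pool.Agent.H447R2.PE.indep_two h
    refine ⟨?_, ?_⟩
    · rintro ⟨q, hq⟩
      have := h2 (-q) 1 1 0 (by push_cast; rw [hq]; ring)
      exact absurd this.2.1 (by norm_num)
    · rintro ⟨q, hq⟩
      have := h2 (-q) (-1) 1 0 (by push_cast; rw [hq]; ring)
      exact absurd this.2.2.1 (by norm_num)
  · exact Or.inr h

end Pool.Agent.Results.MP_363d4d_nt.PlusMinusOrFew
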