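import Pool.Agent.H206R2.Tower.Base2

/-!
Either `π + c e` is transcendental for all algebraic `c ≠ 0` with `π + c e ≠ 0` (so `π + e` and
`π - e` are), or at least two of the three sets `{1/π, e/π}`, `{1/e, π/e}`, `{π², π e, e²}` consist
of numbers that are not linear combinations of `1` and logarithms of algebraic numbers with
algebraic coefficients.
-/

set_option autoImplicit false

namespace Pool.Agent.Results.MP_363d4d_nt.PlusMinusOrInverses

open Real Pool.Agent.H301R2.SSE Pool.Agent.H301R2.Nine Pool.Agent.H206R2.Tower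
open Pool.Agent.H206R2.OneVar (sub_ne mul_pole poles2)

/-- `x` is strongly log-free: every number `exp (γ x + δ) · α₁ ^ β₁ ⋯ αₙ ^ βₙ` is
transcendental, where `γ ≠ 0`, `δ` and the `βⱼ` are algebraic and `αⱼ ^ βⱼ = exp (βⱼ ℓⱼ)` with
`exp ℓⱼ = αⱼ` algebraic. -/
def StronglyLogFree (x : ℂ) : Prop :=
  ∀ γ δ : ℂ, IsAlgebraic ℚ γ → IsAlgebraic ℚ δ → γ ≠ 0 → ∀ (n : ℕ) (β ℓ : Fin n → ℂ),
    (∀ j, IsAlgebraic ℚ (β j)) → (∀ j, IsAlgebraic ℚ (Complex.exp (ℓ j))) →
      Transcendental ℚ (Complex.exp (γ * x + δ + ∑ j, β j * ℓ j))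

theorem strong_of {x : ℂ} (hx : x ∉ Lt) : StronglyLogFree x := by
  intro γ δ hγ hδ hγ0 n β ℓ hβ hℓ h
  apply hx
  have h' : IsAlgebraic ℚ (Complex.exp (γ * x + δ + ∑ j, β j * ℓ j)) := h
  have h1 : γ * x + δ + ∑ j, β j * ℓ j ∈ Lt := Lt_log h'
  have h2 : ∑ j, β j * ℓ j ∈ Lt := Lt.sum_mem (fun j _ => Lt_mul (hβ j) (Lt_log (hℓ j)))
  have h3 := Lt_mul hγ.inv (Lt.sub_mem (Lt.sub_mem h1 h2) (Lt_alg hδ))
  have e : γ⁻¹ * (γ * x + δ + ∑ j, β j * ℓ j - ∑ j, β j * ℓ j - δ) = x := by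
    rw [add_sub_cancel_right, add_sub_cancel_right, inv_mul_cancel_left₀ hγ0]
  rwa [e] at h3

/-- the number `e`, as a complex number -/
noncomputable def ee : ℂ := ((Real.exp 1 : ℝ) : ℂ)

/-- the number `π`, as a complex number -/
noncomputable def pp : ℂ := ((Real.pi : ℝ) : ℂ)

theorem pp_tr : ¬ IsAlgebraic ℚ pp := trC_pi

theorem ee_tr : ¬ IsAlgebraic ℚ ee := trC_e

theorem pp0 : pp ≠ 0 := ne_zero_of_tr pp_tr

theorem ee0 : ee ≠ 0 := ne_zero_of_tr ee_tr

theorem pp_Lt : pp ∈ Lt := LB_Lt pi_mem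

/-- `1/π` and `π²` -/
theorem pair1 (h1 : 1 / pp ∈ Lt) (h2 : pp ^ 2 ∈ Lt) : False := by
  have p0 := pp0
  refine six' 1 pp (1 / pp) 1 pp
    (fun a b ha hb h => lin_of_tr pp_tr ha hb (by linear_combination h)) ?_
    (by rw [one_mul]; exact h1) (by rw [one_mul]; exact Lt_one) (by rw [one_mul]; exact pp_Lt)
    (by rw [mul_one_div_cancel p0]; exact Lt_one) (by rw [mul_one]; exact pp_Lt)
    (by rw [← sq]; exact h2)
  intro a b c ha hb hc h
  refine quad pp_tr ha hb hc ?_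
  have : pp * (a * (1 / pp) + b * 1 + c * pp) = a + b * pp + c * pp ^ 2 := by
    field_simp
  rw [← this, h, mul_zero]

/-- `1/(π - α)` and `π²` -/
theorem pair2 {α : ℂ} (hα : IsAlgebraic ℚ α) (h1 : 1 / (pp - α) ∈ Lt) (h2 : pp ^ 2 ∈ Lt) :
    False := by
  have s0 := sub_ne pp_tr hα
  refine six' 1 pp (1 / (pp - α)) 1 pp
    (fun a b ha hb h => lin_of_tr pp_tr ha hb (by linear_combination h)) ?_
    (by rw [one_mul]; exact h1) (by rw [one_mul]; exact Lt_one) (by rw [one_mul]; exact pp_Lt)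
    (mul_pole pp_tr hα h1) (by rw [mul_one]; exact pp_Lt)
    (by rw [← sq]; exact h2)
  intro a b c ha hb hc h
  have key : (a - b * α) + (b - c * α) * pp + c * pp ^ 2 = 0 := by
    have : (pp - α) * (a * (1 / (pp - α)) + b * 1 + c * pp)
        = (a - b * α) + (b - c * α) * pp + c * pp ^ 2 := by
      field_simp
      ring
    rw [← this, h, mul_zero]
  obtain ⟨k0, k1, k2⟩ := quad pp_tr (ha.sub (hb.mul hα)) (hb.sub (hc.mul hα)) hc key
  subst k2
  have hb0 : b = 0 := by linear_combination k1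
  subst hb0
  exact ⟨by linear_combination k0, rfl, rfl⟩

/-- Either `π + c e` is transcendental for all algebraic `c ≠ 0` with `π + c e ≠ 0`, or for at least
two of the three sets `{1/π, e/π}`, `{1/e, π/e}`, `{π², π e, e²}` all members are strongly
log-free, and for all three if `α ^ π` is algebraic for some real algebraic `α > 0`, `α ≠ 1`. -/
theorem result :
    (∀ c : ℂ, IsAlgebraic ℚ c → c ≠ 0 → pp + c * ee ≠ 0 → Transcendental ℚ (pp + c * ee)) ∨
    (((StronglyLogFree (1 / pp) ∧ StronglyLogFree (ee / pp)) ∨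
        (StronglyLogFree (1 / ee) ∧ StronglyLogFree (pp / ee))) ∧
      ((StronglyLogFree (1 / pp) ∧ StronglyLogFree (ee / pp)) ∨
        (StronglyLogFree (pp ^ 2) ∧ StronglyLogFree (pp * ee) ∧ StronglyLogFree (ee ^ 2))) ∧
      ((StronglyLogFree (1 / ee) ∧ StronglyLogFree (pp / ee)) ∨
        (StronglyLogFree (pp ^ 2) ∧ StronglyLogFree (pp * ee) ∧ StronglyLogFree (ee ^ 2))) ∧
      ((∀ x : ℝ, IsAlgebraic ℚ x → 0 < x → x ≠ 1 → Transcendental ℚ (x ^ π)) ∨
        ((StronglyLogFree (1 / pp) ∧ StronglyLogFree (ee / pp)) ∧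
          (StronglyLogFree (1 / ee) ∧ StronglyLogFree (pp / ee)) ∧
          (StronglyLogFree (pp ^ 2) ∧ StronglyLogFree (pp * ee) ∧ StronglyLogFree (ee ^ 2))))) := by
  by_cases hH : ∀ c : ℂ, IsAlgebraic ℚ c → c ≠ 0 → pp + c * ee ≠ 0 → Transcendental ℚ (pp + c * ee)
  · exact Or.inl hH
  right
  push Not at hH
  obtain ⟨c, hc, hc0, hne, hα⟩ := hH
  rw [Transcendental, not_not] at hα
  set α : ℂ := pp + c * ee with hαdef
  have p0 := pp0
  have e0 := ee0
  -- the three classes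
  have hA : ¬ (StronglyLogFree (1 / pp) ∧ StronglyLogFree (ee / pp)) → 1 / pp ∈ Lt := by
    intro h
    by_contra h1
    apply h
    refine ⟨strong_of h1, strong_of (fun h2 => h1 ?_)⟩
    have e : 1 / pp = α⁻¹ * (1 + c * (ee / pp)) := by
      have hα0 : α ≠ 0 := hne
      rw [eq_comm, inv_mul_eq_div, div_eq_iff hα0, hαdef]
      field_simp
    rw [e]
    exact Lt_mul hα.inv (Lt.add_mem Lt_one (Lt_mul hc h2))
  have hB : ¬ (StronglyLogFree (1 / ee) ∧ StronglyLogFree (pp / ee)) → 1 / ee ∈ Lt := by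
    intro h
    by_contra h1
    apply h
    refine ⟨strong_of h1, strong_of (fun h2 => h1 ?_)⟩
    have e : 1 / ee = α⁻¹ * (pp / ee + c) := by
      have hα0 : α ≠ 0 := hne
      rw [eq_comm, inv_mul_eq_div, div_eq_iff hα0, hαdef]
      field_simp
    rw [e]
    exact Lt_mul hα.inv (Lt.add_mem h2 (Lt_alg hc))
  have hC : ¬ (StronglyLogFree (pp ^ 2) ∧ StronglyLogFree (pp * ee) ∧ StronglyLogFree (ee ^ 2)) →
      pp ^ 2 ∈ Lt := by
    intro h
    by_contra h1
    apply h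
    refine ⟨strong_of h1, strong_of (fun h2 => h1 ?_), strong_of (fun h2 => h1 ?_)⟩
    · have e : pp ^ 2 = α * pp - c * (pp * ee) := by rw [hαdef]; ring
      rw [e]
      exact Lt.sub_mem (Lt_mul hα pp_Lt) (Lt_mul hc h2)
    · have e : pp ^ 2 = c ^ 2 * ee ^ 2 - α ^ 2 + (2 * α) * pp := by rw [hαdef]; ring
      rw [e]
      have h22 : IsAlgebraic ℚ (2 : ℂ) := isAlgebraic_natCast 2
      exact Lt.add_mem (Lt.sub_mem (Lt_mul (hc.pow 2) h2) (Lt_alg (hα.pow 2)))
        (Lt_mul (h22.mul hα) pp_Lt)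
  -- `1 / (π - α)` from `1 / e`
  have hpole : 1 / ee ∈ Lt → 1 / (pp - α) ∈ Lt := by
    intro h
    have e : 1 / (pp - α) = (-c)⁻¹ * (1 / ee) := by
      have h3 : pp - α = (-c) * ee := by rw [hαdef]; ring
      rw [h3, one_div, mul_inv, one_div]
    rw [e]
    exact Lt_mul hc.neg.inv h
  refine ⟨?_, ?_, ?_, ?_⟩
  · by_contra hcon
    rw [not_or] at hcon
    have h1 := hA hcon.1
    have h2 := hpole (hB hcon.2)
    refine poles2 pp_tr isAlgebraic_zero hα (Ne.symm hne) pp_Lt (by rw [sub_zero]; exact h1) h2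
  · by_contra hcon
    rw [not_or] at hcon
    exact pair1 (hA hcon.1) (hC hcon.2)
  · by_contra hcon
    rw [not_or] at hcon
    exact pair2 hα (hpole (hB hcon.1)) (hC hcon.2)
  · by_cases hD : ∀ x : ℝ, IsAlgebraic ℚ x → 0 < x → x ≠ 1 → Transcendental ℚ (x ^ π)
    · exact Or.inl hD
    right
    push Not at hD
    obtain ⟨x, hx, hx0, hx1, hxp⟩ := hD
    rw [Transcendental, not_not, Real.rpow_def_of_pos hx0, mul_comm] at hxp
    have hL0 : Real.log x ≠ 0 := by
      intro h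
      rcases Real.log_eq_zero.mp h with h | h | h
      · exact hx0.ne' h
      · exact hx1 h
      · linarith
    have hL : IsAlgebraic ℚ (Real.exp (Real.log x)) := by rw [Real.exp_log hx0]; exact hx
    have hM : (π : ℂ) * (Real.log x : ℂ) ∈ LB := by
      have := real_mem hxp
      rwa [Complex.ofReal_mul] at this
    refine ⟨?_, ?_, ?_⟩
    · by_contra h
      have h1 := hA h
      refine b_pole hL0 hL hxp isAlgebraic_zero ?_
      rw [sub_zero]
      exact h1
    · by_contra h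
      exact b_pole hL0 hL hxp hα (hpole (hB h))
    · by_contra h
      exact b_sq hL0 hL hM (hC h)

end Pool.Agent.Results.MP_363d4d_nt.PlusMinusOrInverses
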