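import Pool.Agent.H484R2.EPi
import Pool.Agent.H559R15.PiE

/-!
Either `π + e` and `π - e` are both transcendental, or the exponentials listed below are
transcendental; among them two of the three numbers `e ^ (π ^ 2)`, `e ^ (π e)`, `e ^ (e ^ 2)`.
`W` is the vector space spanned by `1, e, π` over the algebraic numbers.
-/

namespace Pool.Agent.Results.MP_363d4d_nt.TwoOfThree

open Pool.Agent.H484R2.EPi Pool.Agent.H559R15

theorem result :
    (Transcendental ℚ (Real.pi + Real.exp 1) ∧ Transcendental ℚ (Real.pi - Real.exp 1)) ∨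
    (((Transcendental ℚ (Real.exp (Real.pi ^ 2)) ∨
          Transcendental ℚ (Real.exp (Real.pi * Real.exp 1))) ∧
        (Transcendental ℚ (Real.exp (Real.pi ^ 2)) ∨
          Transcendental ℚ (Real.exp (Real.exp 1 ^ 2))) ∧
        (Transcendental ℚ (Real.exp (Real.pi * Real.exp 1)) ∨
          Transcendental ℚ (Real.exp (Real.exp 1 ^ 2)))) ∧
     (∀ (a b c a' b' c' : ℚ) (t t' : ℝ), (t : ℂ) ∈ W → (t' : ℂ) ∈ W →
        LinearIndependent ℚ
          ![a * Real.pi ^ 2 + b * (Real.pi * Real.exp 1) + c * Real.exp 1 ^ 2 + t,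
            a' * Real.pi ^ 2 + b' * (Real.pi * Real.exp 1) + c' * Real.exp 1 ^ 2 + t'] →
        Transcendental ℚ (Real.exp
            (a * Real.pi ^ 2 + b * (Real.pi * Real.exp 1) + c * Real.exp 1 ^ 2 + t)) ∨
          Transcendental ℚ (Real.exp
            (a' * Real.pi ^ 2 + b' * (Real.pi * Real.exp 1) + c' * Real.exp 1 ^ 2 + t'))) ∧
     (∀ θ : ℝ, (θ : ℂ) ∈ W → Transcendental ℚ θ →
        ∀ (n : ℕ) (x c : Fin n → ℝ), (∀ i, 0 < x i) → (∀ i, IsAlgebraic ℚ (x i)) →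
          (∀ i, IsAlgebraic ℚ (c i)) → Transcendental ℚ (Real.exp θ * ∏ i, x i ^ c i)) ∧
     (∀ θ₁ ∈ W, ∀ θ₂ ∈ W, Transcendental ℚ θ₁ → Transcendental ℚ θ₂ → ∀ t₁ ∈ W, ∀ t₂ ∈ W,
        ∀ l m : ℂ, IsAlgebraic ℚ (Complex.exp l) → IsAlgebraic ℚ (Complex.exp m) →
          LinearIndependent ℚ ![l, m] →
          Transcendental ℚ (Complex.exp (θ₁ * l + t₁)) ∨
            Transcendental ℚ (Complex.exp (θ₂ * m + t₂))) ∧
     (∀ θ₁ ∈ W, ∀ θ₂ ∈ W, ∀ θ₃ ∈ W, Transcendental ℚ θ₁ → Transcendental ℚ θ₂ →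
        Transcendental ℚ θ₃ → ∀ t₁ ∈ W, ∀ t₂ ∈ W, ∀ l : ℂ, IsAlgebraic ℚ (Complex.exp l) →
          (∀ q : ℚ, l ≠ q * (Real.pi * Complex.I)) →
          Transcendental ℚ (Complex.exp (θ₁ * θ₂ + t₁)) ∨
            Transcendental ℚ (Complex.exp (θ₃ * l + t₂)))) := by
  by_cases h : Transcendental ℚ (Real.pi + Real.exp 1) ∧ Transcendental ℚ (Real.pi - Real.exp 1)
  · exact Or.inl h
  right
  obtain ⟨r, s, hr, hr0, hs, hE⟩ := rel_of_not h
  have hu : IsAlgebraic ℚ (r : ℂ) := hr.algebraMap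
  have hv : IsAlgebraic ℚ ((s : ℚ) : ℂ) := alg_rat s
  have hv0 : ((s : ℚ) : ℂ) ≠ 0 := by
    rcases hs with h1 | h1 <;> rw [h1] <;> norm_num
  have hEc : E = (r : ℂ) + ((s : ℚ) : ℂ) * Real.pi := by
    have h1 := congrArg (fun z : ℝ => (z : ℂ)) hE
    simpa using h1
  refine ⟨pairs hr hr0 hE, ?_, ?_, ?_, ?_⟩
  · intro a b c a' b' c' t t' ht ht' hli
    exact two hr hE a b c a' b' c' t t' ht ht' hli
  · intro θ h ht n x c h0 hx hc
    exact part1 hu hv hEc h ht x c h0 hx hc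
  · intro θ₁ h1 θ₂ h2 ht1 ht2 t₁ hts1 t₂ hts2 l m hl hm hlm
    by_contra hcon
    push Not at hcon
    simp only [Transcendental, not_not] at hcon
    exact part2 hu hv hEc h1 ht1 h2 ht2 hts1 hts2 hl hm hlm hcon.1 hcon.2
  · intro θ₁ h1 θ₂ h2 θ₃ h3 ht1 ht2 ht3 t₁ hts1 t₂ hts2 l hl hq
    by_contra hcon
    push Not at hcon
    simp only [Transcendental, not_not] at hcon
    exact part3 hu hv hv0 hEc h1 ht1 h2 ht2 h3 ht3 hts1 hts2 hl hq hcon.1 hcon.2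

end Pool.Agent.Results.MP_363d4d_nt.TwoOfThree
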